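import Pool.Agent.D0H30.DE.Count

/-!
# The nine numbers and double exponentials with algebraic parameters

Eight of the nine numbers, all except `π ^ √2`, are members at `β = 1` (at `β = 2` for `e ^ (π ^ 2)`)
of the families

* `π + e ^ β`, `π - e ^ β`, `π e ^ β`, `π / e ^ β`, `e ^ (e ^ β)`, `π ^ (e ^ β)`,
* `e ^ (π ^ β)`, `π ^ (π ^ β)`,

where `β` is an algebraic number. We study the sets of all algebraic `β` (for instance in a number
field) for which these numbers are algebraic (also with any nonzero linear form `Λ` in `1` and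
logarithms of algebraic numbers in the place of `π` in the first four), more generally the sets
`E(v, w) = {β : v e ^ (w β) is a linear form in 1 and logarithms of algebraic numbers}`.

* Structure: if `h` has transcendental `e ^ (w h)`, then the `β` with `β, β + h ∈ E(v, w)` are
  affinely independent over `ℚ`, modulo the space of the numbers `z` with algebraic `e ^ (w z)`; for
  algebraic `w ≠ 0` there are at most two algebraic ones.
* Counting: of the `N ^ d` numbers `∑ n_i ω_i`, `1 ≤ n_i ≤ N`, with `ω_1, …, ω_d` a basis of a number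
  field of degree `d` (or any algebraic numbers which are linearly independent over `ℚ`), at most
  `1 + √(2 (2N) ^ d)` lie in `E(v, w)` if `w ≠ 0` is algebraic, and at most
  `N (1 + √(d (2N) ^ (d - 1)))` for any `w ≠ 0`, in particular for `w = log π`.

Proof. By the strong six exponentials theorem of D. Roy the numbers `e ^ (w β)` with
`β, β + h ∈ E(v, w)` span a space of dimension at most two over the algebraic numbers, so their
quotients are linear forms in one transcendental number, and these are multiplicatively independent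
by unique factorisation in the polynomial ring. For algebraic `w` the theorem of Lindemann and
Weierstrass applies. A difference between two elements of the set therefore occurs at most `d + 1`
times.
-/

set_option autoImplicit false

namespace Pool.Agent.Results.MP_a2f59b_nt.DoubleExponentials

/-- The linear combinations, with algebraic coefficients, of `1` and of logarithms of algebraic
numbers, i.e. of complex numbers `z` with algebraic `e ^ z`. -/
noncomputable def LogForms : Submodule (algebraicClosure ℚ ℂ) ℂ :=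
  Submodule.span (algebraicClosure ℚ ℂ) ({1} ∪ {z : ℂ | IsAlgebraic ℚ (Complex.exp z)})

/-- The number of integer vectors `n` with `1 ≤ n_i ≤ N` such that `β = ∑ n_i ω_i` has the
property `P`. -/
noncomputable def count {d : ℕ} (ω : Fin d → ℂ) (N : ℕ) (P : ℂ → Prop) : ℕ :=
  {n : Fin d → ℤ | (∀ i, 1 ≤ n i ∧ n i ≤ N) ∧ P (∑ i, (n i : ℂ) * ω i)}.ncard

/-- For all `Λ` in `LogForms`, for example `Λ = 0` and `Λ = ± π`, the numbers `Λ + x`,
`e ^ (Λ + x)`, `e ^ Λ π ^ x` and, if `Λ ≠ 0`, `Λ / x` are transcendental. -/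
def Generic (x : ℂ) : Prop :=
  ∀ Λ ∈ LogForms, Transcendental ℚ (Λ + x) ∧ Transcendental ℚ (Complex.exp (Λ + x)) ∧
    Transcendental ℚ (Complex.exp Λ * (Real.pi : ℂ) ^ x) ∧ (Λ ≠ 0 → Transcendental ℚ (Λ / x))

/-- All numbers `γ e ^ β` with algebraic `γ ≠ 0` are generic, and all `Λ e ^ β` with `Λ ≠ 0` in
`LogForms` are transcendental; in particular `π + e ^ β`, `π - e ^ β`, `π e ^ β`, `π / e ^ β`,
`e ^ (e ^ β)` and `π ^ (e ^ β)` are transcendental. -/
def ExpGeneric (β : ℂ) : Prop :=
  (∀ γ : ℂ, IsAlgebraic ℚ γ → γ ≠ 0 → Generic (γ * Complex.exp β)) ∧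
    ∀ Λ ∈ LogForms, Λ ≠ 0 → Transcendental ℚ (Λ * Complex.exp β)

/-- All numbers `γ π ^ β` with algebraic `γ ≠ 0` are generic; in particular `e ^ (π ^ β)` and
`π ^ (π ^ β)` are transcendental. -/
def PiGeneric (β : ℂ) : Prop :=
  ∀ γ : ℂ, IsAlgebraic ℚ γ → γ ≠ 0 → Generic (γ * (Real.pi : ℂ) ^ β)

open Pool.Agent.D0H30.DE Pool.Agent.H301R2.SSE Pool.Agent.H301R2.Nine

open Classical in
theorem count_eq {d : ℕ} (ω : Fin d → ℂ) (N : ℕ) (P : ℂ → Prop) :
    count ω N P = ((box d N).filter fun n => P (∑ i, (n i : ℂ) * ω i)).card := by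
  unfold count
  rw [← Set.ncard_coe_finset]
  congr 1
  ext n
  simp [box, Fintype.mem_piFinset, Finset.mem_Icc]

theorem count_mono {d : ℕ} (ω : Fin d → ℂ) (N : ℕ) {P Q : ℂ → Prop} (h : ∀ β, P β → Q β) :
    count ω N P ≤ count ω N Q := by
  classical
  rw [count_eq, count_eq]
  apply Finset.card_le_card
  intro n hn
  rw [Finset.mem_filter] at hn ⊢
  exact ⟨hn.1, h _ hn.2⟩

theorem count_or {d : ℕ} (ω : Fin d → ℂ) (N : ℕ) (P Q : ℂ → Prop) :
    count ω N (fun β => P β ∨ Q β) ≤ count ω N P + count ω N Q := by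
  classical
  rw [count_eq, count_eq, count_eq]
  refine le_trans (Finset.card_le_card ?_) (Finset.card_union_le _ _)
  intro n hn
  simp only [Finset.mem_union, Finset.mem_filter] at hn ⊢
  tauto

theorem logPi_ne : Complex.log (Real.pi : ℂ) ≠ 0 := by
  rw [← Complex.ofReal_log Real.pi_pos.le, Complex.ofReal_ne_zero]
  exact (Real.log_pos (by linarith [Real.pi_gt_three])).ne'

theorem piC_ne : (Real.pi : ℂ) ≠ 0 := by exact_mod_cast Real.pi_ne_zero

theorem pi_mem' : (Real.pi : ℂ) ∈ Lt := LB_Lt pi_mem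

theorem of_mul {γ z : ℂ} (hγ : IsAlgebraic ℚ γ) (h0 : γ ≠ 0) (h : γ * z ∈ Lt) : z ∈ Lt := by
  have h1 := Lt_mul hγ.inv h
  rwa [← mul_assoc, inv_mul_cancel₀ h0, one_mul] at h1

theorem not_generic {x : ℂ} (h : ¬ Generic x) :
    x ∈ Lt ∨ Complex.log (Real.pi : ℂ) * x ∈ Lt := by
  unfold Generic at h
  push Not at h
  obtain ⟨Λ, hΛ, h⟩ := h
  have hΛ' : Λ ∈ Lt := hΛ
  by_cases h1 : Transcendental ℚ (Λ + x)
  · by_cases h2 : Transcendental ℚ (Complex.exp (Λ + x))
    · by_cases h3 : Transcendental ℚ (Complex.exp Λ * (Real.pi : ℂ) ^ x)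
      · left
        obtain ⟨h0, h4⟩ := h h1 h2 h3
        have h4' : IsAlgebraic ℚ (Λ / x) := not_not.mp h4
        by_cases hx : x = 0
        · rw [hx]
          exact Lt.zero_mem
        · have h5 : x = (Λ / x)⁻¹ * Λ := by
            rw [inv_div]
            field_simp
          rw [h5]
          exact Lt_mul h4'.inv hΛ'
      · right
        have h4 : IsAlgebraic ℚ (Complex.exp Λ * (Real.pi : ℂ) ^ x) := not_not.mp h3
        rw [Complex.cpow_def_of_ne_zero piC_ne, ← Complex.exp_add] at h4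
        have h5 := Lt.sub_mem (Lt_log h4) hΛ'
        rwa [add_sub_cancel_left] at h5
    · left
      have h5 := Lt.sub_mem (Lt_log (not_not.mp h2)) hΛ'
      rwa [add_sub_cancel_left] at h5
  · left
    have h5 := Lt.sub_mem (Lt_alg (not_not.mp h1)) hΛ'
    rwa [add_sub_cancel_left] at h5

theorem not_all {β : ℂ} (h : ¬ ExpGeneric β) :
    (1 : ℂ) * Complex.exp (1 * β) ∈ Lt ∨ (1 : ℂ) * Complex.exp (-1 * β) ∈ Lt ∨
      Complex.log (Real.pi : ℂ) * Complex.exp (1 * β) ∈ Lt := by
  unfold ExpGeneric at h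
  simp only [one_mul, neg_mul]
  rw [not_and_or] at h
  rcases h with h | h
  · push Not at h
    obtain ⟨γ, hγ, h0, h⟩ := h
    rcases not_generic h with h1 | h1
    · left
      exact of_mul hγ h0 h1
    · right; right
      apply of_mul hγ h0
      have h5 : γ * (Complex.log (Real.pi : ℂ) * Complex.exp β) =
          Complex.log (Real.pi : ℂ) * (γ * Complex.exp β) := by ring
      rw [h5]
      exact h1
  · right; left
    push Not at h
    obtain ⟨Λ, hΛ, h0, h⟩ := h
    have h1 : IsAlgebraic ℚ (Λ * Complex.exp β) := not_not.mp h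
    have h3 := Lt_mul h1.inv hΛ
    have h4 : (Λ * Complex.exp β)⁻¹ * Λ = Complex.exp (-β) := by
      rw [Complex.exp_neg, mul_inv]
      field_simp
    rwa [h4] at h3

theorem not_both {β : ℂ} (h : ¬ PiGeneric β) :
    (1 : ℂ) * Complex.exp (Complex.log (Real.pi : ℂ) * β) ∈ Lt ∨
      Complex.log (Real.pi : ℂ) * Complex.exp (Complex.log (Real.pi : ℂ) * β) ∈ Lt := by
  unfold PiGeneric at h
  push Not at h
  obtain ⟨γ, hγ, h0, h⟩ := h
  rw [one_mul]
  rw [Complex.cpow_def_of_ne_zero piC_ne] at h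
  rcases not_generic h with h1 | h1
  · left
    exact of_mul hγ h0 h1
  · right
    apply of_mul hγ h0
    have h5 : γ * (Complex.log (Real.pi : ℂ) * Complex.exp (Complex.log (Real.pi : ℂ) * β)) =
        Complex.log (Real.pi : ℂ) * (γ * Complex.exp (Complex.log (Real.pi : ℂ) * β)) := by ring
    rw [h5]
    exact h1

/-- **Main result.** -/
theorem result :
    -- (A) eight of the nine numbers
    (∀ (d N : ℕ) (ω : Fin d → ℂ), (∀ i, IsAlgebraic ℚ (ω i)) → LinearIndependent ℚ ω →
      (count ω N (fun β => ¬ ExpGeneric β) : ℝ) ≤ 3 * (1 + √(2 * (2 * N) ^ d))) ∧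
    (∀ (d N : ℕ) (ω : Fin (d + 1) → ℂ), (∀ i, IsAlgebraic ℚ (ω i)) → LinearIndependent ℚ ω →
      (count ω N (fun β => ¬ PiGeneric β) : ℝ) ≤
        2 * N * (1 + √((d + 1) * (2 * N) ^ d))) ∧
    -- (B) all double exponentials
    (∀ v w : ℂ, v ≠ 0 → w ≠ 0 →
      (∀ (d N : ℕ) (ω : Fin d → ℂ), (∀ i, IsAlgebraic ℚ (ω i)) → LinearIndependent ℚ ω →
        IsAlgebraic ℚ w →
        (count ω N (fun β => v * Complex.exp (w * β) ∈ LogForms) : ℝ) ≤
          1 + √(2 * (2 * N) ^ d)) ∧
      (∀ (d N : ℕ) (ω : Fin (d + 1) → ℂ), (∀ i, IsAlgebraic ℚ (ω i)) → LinearIndependent ℚ ω →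
        (count ω N (fun β => v * Complex.exp (w * β) ∈ LogForms) : ℝ) ≤
          N * (1 + √((d + 1) * (2 * N) ^ d))) ∧
      (∀ (d N : ℕ) (ω : Fin d → ℂ),
        (∀ n : Fin d → ℤ, IsAlgebraic ℚ (Complex.exp (w * ∑ i, (n i : ℂ) * ω i)) → n = 0) →
        (count ω N (fun β => v * Complex.exp (w * β) ∈ LogForms) : ℝ) ≤
          1 + √((d + 1) * (2 * N) ^ d))) ∧
    -- (C) the structure
    (∀ v w h : ℂ, v ≠ 0 → Transcendental ℚ (Complex.exp (w * h)) →
      ∀ (k : ℕ) (β : Fin (k + 1) → ℂ),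
      (∀ j, v * Complex.exp (w * β j) ∈ LogForms ∧ v * Complex.exp (w * (β j + h)) ∈ LogForms) →
      (∀ i j, i ≠ j → Transcendental ℚ (Complex.exp (w * (β i - β j)))) →
      (∀ c : Fin k → ℚ,
        IsAlgebraic ℚ (Complex.exp (w * ∑ j, (c j : ℂ) * (β j.succ - β 0))) → c = 0) ∧
      (IsAlgebraic ℚ w → IsAlgebraic ℚ h → (∀ j, IsAlgebraic ℚ (β j)) → k ≤ 1)) := by
  classical
  have hB1 : ∀ v w : ℂ, v ≠ 0 → w ≠ 0 → ∀ (d N : ℕ) (ω : Fin d → ℂ),
      (∀ i, IsAlgebraic ℚ (ω i)) → LinearIndependent ℚ ω → IsAlgebraic ℚ w →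
      (count ω N (fun β => v * Complex.exp (w * β) ∈ Lt) : ℝ) ≤ 1 + √(2 * (2 * N) ^ d) := by
    intro v w hv hw0 d N ω hω hli hw
    rw [count_eq]
    exact count_alg ω hω hli v w hv hw0 hw N
  have hB2 : ∀ v w : ℂ, v ≠ 0 → w ≠ 0 → ∀ (d N : ℕ) (ω : Fin (d + 1) → ℂ),
      (∀ i, IsAlgebraic ℚ (ω i)) → LinearIndependent ℚ ω →
      (count ω N (fun β => v * Complex.exp (w * β) ∈ Lt) : ℝ) ≤
        N * (1 + √((d + 1) * (2 * N) ^ d)) := by
    intro v w hv hw0 d N ω hω hli
    rw [count_eq]
    have := count_gen ω hω hli v w hv hw0 N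
    push_cast at this
    exact this
  refine ⟨?_, ?_, ?_, ?_⟩
  · intro d N ω hω hli
    have h1 := hB1 1 1 one_ne_zero one_ne_zero d N ω hω hli isAlgebraic_one
    have h2 := hB1 1 (-1) one_ne_zero (neg_ne_zero.mpr one_ne_zero) d N ω hω hli
      isAlgebraic_one.neg
    have h3 := hB1 (Complex.log (Real.pi : ℂ)) 1 logPi_ne one_ne_zero d N ω hω hli isAlgebraic_one
    have h4 : count ω N (fun β => ¬ ExpGeneric β) ≤
        count ω N (fun β => (1 : ℂ) * Complex.exp (1 * β) ∈ Lt) +
          (count ω N (fun β => (1 : ℂ) * Complex.exp (-1 * β) ∈ Lt) +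
            count ω N (fun β => Complex.log (Real.pi : ℂ) * Complex.exp (1 * β) ∈ Lt)) :=
      (count_mono ω N (fun β => not_all)).trans ((count_or ω N _ _).trans
        (Nat.add_le_add_left (count_or ω N _ _) _))
    have h5 : (count ω N (fun β => ¬ ExpGeneric β) : ℝ) ≤
        (count ω N (fun β => (1 : ℂ) * Complex.exp (1 * β) ∈ Lt) : ℝ) +
          ((count ω N (fun β => (1 : ℂ) * Complex.exp (-1 * β) ∈ Lt) : ℝ) +
            (count ω N (fun β => Complex.log (Real.pi : ℂ) * Complex.exp (1 * β) ∈ Lt) : ℝ)) := by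
      exact_mod_cast h4
    linarith
  · intro d N ω hω hli
    have h1 := hB2 1 (Complex.log (Real.pi : ℂ)) one_ne_zero logPi_ne d N ω hω hli
    have h2 := hB2 (Complex.log (Real.pi : ℂ)) (Complex.log (Real.pi : ℂ)) logPi_ne logPi_ne d N ω
      hω hli
    have h4 : count ω N (fun β => ¬ PiGeneric β) ≤
        count ω N (fun β => (1 : ℂ) * Complex.exp (Complex.log (Real.pi : ℂ) * β) ∈ Lt) +
          count ω N (fun β => Complex.log (Real.pi : ℂ) *
            Complex.exp (Complex.log (Real.pi : ℂ) * β) ∈ Lt) :=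
      (count_mono ω N (fun β => not_both)).trans (count_or ω N _ _)
    have h5 : (count ω N (fun β => ¬ PiGeneric β) : ℝ) ≤
        (count ω N (fun β => (1 : ℂ) * Complex.exp (Complex.log (Real.pi : ℂ) * β) ∈ Lt) : ℝ) +
          (count ω N (fun β => Complex.log (Real.pi : ℂ) *
            Complex.exp (Complex.log (Real.pi : ℂ) * β) ∈ Lt) : ℝ) := by
      exact_mod_cast h4
    linarith
  · intro v w hv hw0
    refine ⟨hB1 v w hv hw0, hB2 v w hv hw0, ?_⟩
    intro d N ω hZ
    rw [count_eq]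
    have := count_free ω v w hv hZ N
    push_cast at this
    exact this
  · intro v w h hv hx k β hm hd
    refine ⟨fun c hc => funext fun j => struct_exp v w h hv hx β (fun j => (hm j).1)
      (fun j => (hm j).2) hd c hc j, ?_⟩
    intro hw hh hβ
    by_contra hk
    push Not at hk
    have hw0 : w ≠ 0 := by
      rintro rfl
      apply hx
      rw [zero_mul, Complex.exp_zero]
      exact isAlgebraic_one
    have hh0 : h ≠ 0 := by
      rintro rfl
      apply hx
      rw [mul_zero, Complex.exp_zero]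
      exact isAlgebraic_one
    have hne : ∀ i j : Fin (k + 1), i ≠ j → β i ≠ β j := by
      intro i j hij he
      apply hd i j hij
      rw [he, sub_self, mul_zero, Complex.exp_zero]
      exact isAlgebraic_one
    have i01 : (⟨0, by omega⟩ : Fin (k + 1)) ≠ ⟨1, by omega⟩ := by
      intro h1
      have := congrArg Fin.val h1
      simp at this
    have i02 : (⟨0, by omega⟩ : Fin (k + 1)) ≠ ⟨2, by omega⟩ := by
      intro h1
      have := congrArg Fin.val h1
      simp at this
    have i12 : (⟨1, by omega⟩ : Fin (k + 1)) ≠ ⟨2, by omega⟩ := by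
      intro h1
      have := congrArg Fin.val h1
      simp at this
    exact two_pairs hv hw0 hw hh0 hh (hβ _) (hβ _) (hβ _) (hne _ _ i01) (hne _ _ i02)
      (hne _ _ i12) (hm _).1 (hm _).1 (hm _).1 (hm _).2 (hm _).2 (hm _).2

end Pool.Agent.Results.MP_a2f59b_nt.DoubleExponentials
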