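import Pool.Agent.D0H30.DE.ExpPoly

/-!
# The nine numbers: exponential polynomials at the points of a number field

The numbers `π + e`, `π - e`, `π / e`, `e ^ e`, `π ^ e`, `e ^ (π ^ 2)`, `π ^ π` are values of the
functions `π ± F(z)`, `π / F(z)`, `e ^ F(z)`, `π ^ F(z)` with the exponential polynomials
`F(z) = e ^ z` (at `z = 1`) and `F(z) = π ^ z` (at `z = 2` and at `z = 1`).

Let `F(z) = P_1(z) e ^ (w_1 z) + … + P_m(z) e ^ (w_m z)` be any exponential polynomial (distinct
complex frequencies `w_j`, complex polynomials `P_j` of degree `< D`), and `ω_1, …, ω_r` a basis of a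
number field of degree `r ≥ 2`. We show: either `F` is a polynomial whose coefficients are linear forms
in `1` and logarithms of algebraic numbers (with algebraic coefficients), so that all its values at
algebraic points are such linear forms, or at most `C N ^ (r - κ)` of the `N ^ r` numbers
`F(n_1 ω_1 + … + n_r ω_r)`, `1 ≤ n_i ≤ N`, are; `κ > 0` depends only on `m` and `D` and `C` on `m`, `D`
and `r`. More generally this holds for the functions `F(n) = ∑ t_j ^ n P_j(n · ω)` on `ℤ ^ r`, for
example (`r = 1`, `ω = 1`) for linear recurrence sequences with complex roots.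

Proof. A set of more than `C N ^ (r - κ)` points of the cube contains Hilbert cubes
`a + {0, h_1} + … + {0, h_k}` whose steps avoid finitely many subgroups of smaller rank. Difference
operators with algebraic coefficients remove the algebraic characters. The translates of a small cube
then give many linearly independent vectors of linear forms in a space of functions on the small cube,
which contains no nonzero function with algebraic values, contradicting the hyperplane case of the
linear subgroup theorem of Waldschmidt and Roy (`Pool.Agent.TH160.TowP.core`, a lemma of the starting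
files about multiplicative cubes of integers, which is also valid here). The polynomials with algebraic
characters are treated with a linear functional which vanishes on the linear forms.
-/

set_option autoImplicit false

namespace Pool.Agent.Results.MP_a2f59b_nt.ExponentialPolynomials

open Polynomial

/-- The linear combinations, with algebraic coefficients, of `1` and of logarithms of algebraic
numbers, i.e. of complex numbers `z` with algebraic `e ^ z`. -/
noncomputable def LogForms : Submodule (algebraicClosure ℚ ℂ) ℂ :=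
  Submodule.span (algebraicClosure ℚ ℂ) ({1} ∪ {z : ℂ | IsAlgebraic ℚ (Complex.exp z)})

/-- The number of integer vectors `n` with `1 ≤ n_i ≤ N` and the property `Q`. -/
noncomputable def count {r : ℕ} (N : ℕ) (Q : (Fin r → ℤ) → Prop) : ℕ :=
  {n : Fin r → ℤ | (∀ i, 1 ≤ n i ∧ n i ≤ N) ∧ Q n}.ncard

/-- The exponential polynomial `∑ P_j(z) e ^ (w_j z)`. -/
noncomputable def expPoly {m : ℕ} (w : Fin m → ℂ) (P : Fin m → ℂ[X]) (z : ℂ) : ℂ :=
  ∑ j, (P j).eval z * Complex.exp (w j * z)

/-- `x` and `π ^ x` stay transcendental after composition with linear forms in logarithms: for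
all `Λ` in `LogForms` (for example `Λ = 0` and `Λ = ± π`) the numbers `Λ + x`, `e ^ (Λ + x)`,
`e ^ Λ π ^ x` and, if `Λ ≠ 0`, `Λ / x` are transcendental. -/
def Generic (x : ℂ) : Prop :=
  ∀ Λ ∈ LogForms, Transcendental ℚ (Λ + x) ∧ Transcendental ℚ (Complex.exp (Λ + x)) ∧
    Transcendental ℚ (Complex.exp Λ * (Real.pi : ℂ) ^ x) ∧ (Λ ≠ 0 → Transcendental ℚ (Λ / x))

/-- The trivial case on the lattice: `P_j = 0` if some `t_jl` is transcendental, and the coefficients
of `P_j` are in `LogForms` if all `t_jl` are algebraic. -/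
def Trivial {m r : ℕ} (t : Fin m → Fin r → ℂ) (P : Fin m → ℂ[X]) : Prop :=
  ∀ j, ((∀ l, IsAlgebraic ℚ (t j l)) → ∀ e, (P j).coeff e ∈ LogForms) ∧
    ((∃ l, Transcendental ℚ (t j l)) → P j = 0)

open Pool.Agent.D0H30.DE Pool.Agent.H301R2.SSE Pool.Agent.H301R2.Nine

open Classical in
theorem count_eq {r : ℕ} (N : ℕ) (Q : (Fin r → ℤ) → Prop) :
    count N Q = ((box r N).filter Q).card := by
  unfold count
  rw [← Set.ncard_coe_finset]
  congr 1
  ext n
  simp [box, Fintype.mem_piFinset, Finset.mem_Icc]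

theorem count_le {r : ℕ} (N : ℕ) {Q Q1 Q2 : (Fin r → ℤ) → Prop} (h : ∀ n, Q n → Q1 n ∨ Q2 n) :
    count N Q ≤ count N Q1 + count N Q2 := by
  classical
  rw [count_eq, count_eq, count_eq]
  refine le_trans (Finset.card_le_card ?_) (Finset.card_union_le _ _)
  intro n hn
  simp only [Finset.mem_union, Finset.mem_filter] at hn ⊢
  have := h n hn.2
  tauto

theorem logPi_ne : Complex.log (Real.pi : ℂ) ≠ 0 := by
  rw [← Complex.ofReal_log Real.pi_pos.le, Complex.ofReal_ne_zero]
  exact (Real.log_pos (by linarith [Real.pi_gt_three])).ne'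

theorem piC_ne : (Real.pi : ℂ) ≠ 0 := by exact_mod_cast Real.pi_ne_zero

theorem not_generic {x : ℂ} (h : ¬ Generic x) :
    x ∈ Lt ∨ Complex.log (Real.pi : ℂ) * x ∈ Lt := by
  unfold Generic at h
  push Not at h
  obtain ⟨Λ, hΛ, h⟩ := h
  have hΛ' : Λ ∈ Lt := hΛ
  by_cases h1 : Transcendental ℚ (Λ + x)
  · by_cases h2 : Transcendental ℚ (Complex.exp (Λ + x))
    · by_cases h3 : Transcendental ℚ (Complex.exp Λ * (Real.pi : ℂ) ^ x)
      · left
        obtain ⟨h0, h4⟩ := h h1 h2 h3
        have h4' : IsAlgebraic ℚ (Λ / x) := not_not.mp h4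
        by_cases hx : x = 0
        · rw [hx]
          exact Lt.zero_mem
        · have h5 : x = (Λ / x)⁻¹ * Λ := by
            rw [inv_div]
            field_simp
          rw [h5]
          exact Lt_mul h4'.inv hΛ'
      · right
        have h4 : IsAlgebraic ℚ (Complex.exp Λ * (Real.pi : ℂ) ^ x) := not_not.mp h3
        rw [Complex.cpow_def_of_ne_zero piC_ne, ← Complex.exp_add] at h4
        have h5 := Lt.sub_mem (Lt_log h4) hΛ'
        rwa [add_sub_cancel_left] at h5
    · left
      have h5 := Lt.sub_mem (Lt_log (not_not.mp h2)) hΛ'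
      rwa [add_sub_cancel_left] at h5
  · left
    have h5 := Lt.sub_mem (Lt_alg (not_not.mp h1)) hΛ'
    rwa [add_sub_cancel_left] at h5

theorem rpow_eq {N r K : ℕ} (hN : 1 ≤ N) (C : ℝ) :
    C * (N : ℝ) ^ r * (N : ℝ) ^ (-(1 / 2 : ℝ) ^ K) = C * (N : ℝ) ^ ((r : ℝ) - (1 / 2 : ℝ) ^ K) := by
  have hN0 : (0 : ℝ) < N := by exact_mod_cast hN
  rw [mul_assoc, ← Real.rpow_natCast, ← Real.rpow_add hN0]
  rfl

theorem pair_zero {r : ℕ} {ω : Fin r → ℂ} (hli : LinearIndependent ℚ ω) {a b : Fin r}
    (hab : a ≠ b) (x y : ℚ) (h : (x : ℂ) * ω a + (y : ℂ) * ω b = 0) : x = 0 ∧ y = 0 := by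
  have h1 := Fintype.linearIndependent_iff.mp hli
    (fun i => (if i = a then x else 0) + (if i = b then y else 0)) (by
      simp only [add_smul, ite_smul, zero_smul, Finset.sum_add_distrib, Finset.sum_ite_eq',
        Finset.mem_univ, if_true, Rat.smul_def]
      exact h)
  have h2 := h1 a
  have h3 := h1 b
  simp only [if_true, if_neg hab, if_neg (Ne.symm hab), add_zero, zero_add] at h2 h3
  exact ⟨h2, h3⟩

theorem two_idx {r : ℕ} (hr : 2 ≤ r) : ∃ a b : Fin r, a ≠ b := by
  refine ⟨⟨0, by omega⟩, ⟨1, by omega⟩, fun h => ?_⟩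
  have := congrArg Fin.val h
  simp at this

/-- nondegeneracy is automatic in rank at least two -/
theorem nondeg {r : ℕ} (hr : 2 ≤ r) {ω : Fin r → ℂ} (hli : LinearIndependent ℚ ω) {c : ℂ}
    (hc : c ≠ 0) : ∃ l, ∀ q : ℕ, 0 < q → Complex.exp (c * ω l) ^ q ≠ 1 := by
  by_contra hcon
  push Not at hcon
  choose q hq0 hq using hcon
  have h1 : ∀ l, ∃ k : ℤ, (q l : ℂ) * (c * ω l) = k * (2 * Real.pi * Complex.I) := by
    intro l
    have h2 := hq l
    rw [← Complex.exp_nat_mul, Complex.exp_eq_one_iff] at h2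
    exact h2
  choose k hk using h1
  obtain ⟨a, b, hab⟩ := two_idx hr
  have e1 := hk a
  have e2 := hk b
  have hqb : ((q b : ℕ) : ℂ) ≠ 0 := by exact_mod_cast (hq0 b).ne'
  have hrel : c * ((k b : ℂ) * (q a : ℂ) * ω a - (k a : ℂ) * (q b : ℂ) * ω b) = 0 := by
    linear_combination (k b : ℂ) * e1 - (k a : ℂ) * e2
  have hrel' := (mul_eq_zero.mp hrel).resolve_left hc
  have hkb : k b ≠ 0 := by
    intro h0
    rw [h0] at e2
    have h4 : (q b : ℂ) * (c * ω b) = 0 := by rw [e2]; simp
    have h5 := (mul_eq_zero.mp ((mul_eq_zero.mp h4).resolve_left hqb)).resolve_left hc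
    exact hli.ne_zero b h5
  have h6 := pair_zero hli hab ((k b : ℚ) * (q a : ℚ)) (-((k a : ℚ) * (q b : ℚ))) (by
    push_cast
    linear_combination hrel')
  rcases mul_eq_zero.mp h6.1 with h8 | h8
  · exact hkb (by exact_mod_cast h8)
  · exact (hq0 a).ne' (by exact_mod_cast h8)

/-- algebraic characters are trivial in rank at least two -/
theorem alg_char {r : ℕ} (hr : 2 ≤ r) {ω : Fin r → ℂ} (hω : ∀ l, IsAlgebraic ℚ (ω l))
    (hli : LinearIndependent ℚ ω) {c : ℂ} (h : ∀ l, IsAlgebraic ℚ (Complex.exp (c * ω l))) :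
    c = 0 := by
  by_contra hc
  obtain ⟨a, b, hab⟩ := two_idx hr
  have ha0 : ω a ≠ 0 := hli.ne_zero a
  have hb := h b
  have e1 : c * ω b = ω b / ω a * (c * ω a) := by
    field_simp
  rw [e1] at hb
  refine gs (h a) (mul_ne_zero hc ha0) (alg_div (hω b) (hω a)) ?_ hb
  intro q hq
  have h1 : ω b = q * ω a := by
    rw [← hq]
    field_simp
  have h6 := pair_zero hli hab q (-1) (by
    rw [h1]
    push_cast
    ring)
  exact absurd h6.2 (by norm_num)

/-- **Main result.** -/
theorem result : ∀ m D : ℕ, ∃ κ : ℝ, 0 < κ ∧ ∀ r : ℕ, ∃ C : ℝ,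
    -- (A) exponential polynomials at the points of a number field
    (2 ≤ r → ∀ ω : Fin r → ℂ, (∀ l, IsAlgebraic ℚ (ω l)) → LinearIndependent ℚ ω →
      ∀ (w : Fin m → ℂ) (P : Fin m → ℂ[X]), Function.Injective w → (∀ j, (P j).degree < D) →
      ((∀ j, (w j ≠ 0 → P j = 0) ∧ ∀ e, (P j).coeff e ∈ LogForms) →
        ∀ n : Fin r → ℤ, expPoly w P (∑ l, (n l : ℂ) * ω l) ∈ LogForms) ∧
      (¬ (∀ j, (w j ≠ 0 → P j = 0) ∧ ∀ e, (P j).coeff e ∈ LogForms) → ∀ N : ℕ, 1 ≤ N →
        (count N (fun n : Fin r → ℤ => expPoly w P (∑ l, (n l : ℂ) * ω l) ∈ LogForms) : ℝ) ≤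
          C * (N : ℝ) ^ ((r : ℝ) - κ)) ∧
      -- (B) the numbers of the problem
      ((∃ j, w j ≠ 0 ∧ P j ≠ 0) → ∀ N : ℕ, 1 ≤ N →
        (count N (fun n : Fin r → ℤ => ¬ Generic (expPoly w P (∑ l, (n l : ℂ) * ω l))) : ℝ) ≤
          2 * C * (N : ℝ) ^ ((r : ℝ) - κ))) ∧
    -- (C) exponential polynomials on a lattice, linear recurrence sequences
    (∀ (t : Fin m → Fin r → ℂ) (ω : Fin r → ℂ) (P : Fin m → ℂ[X]), (∀ j l, t j l ≠ 0) →
      (∀ l, IsAlgebraic ℚ (ω l)) → (∃ l, ω l ≠ 0) →
      (∀ i j, i ≠ j → ∃ l, ∀ q : ℕ, 0 < q → t i l ^ q ≠ t j l ^ q) → (∀ j, (P j).degree < D) →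
      (Trivial t P → ∀ n : Fin r → ℤ,
        ∑ j, (∏ l, t j l ^ n l) * (P j).eval (∑ l, (n l : ℂ) * ω l) ∈ LogForms) ∧
      (¬ Trivial t P → ∀ N : ℕ, 1 ≤ N →
        (count N (fun n : Fin r → ℤ =>
          ∑ j, (∏ l, t j l ^ n l) * (P j).eval (∑ l, (n l : ℂ) * ω l) ∈ LogForms) : ℝ) ≤
          C * (N : ℝ) ^ ((r : ℝ) - κ))) := by
  classical
  intro m D
  refine ⟨(1 / 2 : ℝ) ^ KK m D, by positivity, ?_⟩
  intro r
  obtain ⟨C, hC0, hC⟩ := main m D r
  have hZ : ∀ P : Fin m → ℂ[X], (∀ j, (P j).degree < D) →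
      ∀ j, Pool.Agent.TH160.TowP.Z D (P j) := by
    intro P hP j k hk
    apply coeff_eq_zero_of_degree_lt
    refine lt_of_lt_of_le (hP j) ?_
    exact_mod_cast hk
  refine ⟨C, ?_, ?_⟩
  · intro hr ω hω hli w P hw hP
    set t : Fin m → Fin r → ℂ := fun j l => Complex.exp (w j * ω l) with ht
    have hEP : ∀ (P' : Fin m → ℂ[X]) (n : Fin r → ℤ),
        EP t ω P' n = expPoly w P' (∑ l, (n l : ℂ) * ω l) := by
      intro P' n
      unfold EP expPoly
      apply Finset.sum_congr rfl
      intro j _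
      have h1 : ∏ l, t j l ^ n l = Complex.exp (w j * ∑ l, (n l : ℂ) * ω l) := by
        rw [Finset.mul_sum, Complex.exp_sum]
        apply Finset.prod_congr rfl
        intro l _
        rw [ht, ← Complex.exp_int_mul]
        congr 1
        ring
      rw [h1, mul_comm]
    have hnd : ∀ i j, i ≠ j → ∃ l, ∀ q : ℕ, 0 < q → t i l ^ q ≠ t j l ^ q := by
      intro i j hij
      obtain ⟨l, hl⟩ := nondeg hr hli (c := w i - w j) (sub_ne_zero.mpr fun h => hij (hw h))
      refine ⟨l, fun q hq h => hl q hq ?_⟩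
      rw [sub_mul, Complex.exp_sub, div_pow]
      have h0 : t j l ^ q ≠ 0 := pow_ne_zero _ (Complex.exp_ne_zero _)
      rw [div_eq_one_iff_eq h0]
      exact h
    have hω0 : ∃ l, ω l ≠ 0 := ⟨⟨0, by omega⟩, hli.ne_zero _⟩
    have htr : ∀ P' : Fin m → ℂ[X], (∀ j, (P' j).degree < D) →
        ¬ (∀ j, (w j ≠ 0 → P' j = 0) ∧ ∀ e, (P' j).coeff e ∈ LogForms) → ∀ N : ℕ, 1 ≤ N →
        (count N (fun n : Fin r → ℤ => expPoly w P' (∑ l, (n l : ℂ) * ω l) ∈ LogForms) : ℝ) ≤
          C * (N : ℝ) ^ ((r : ℝ) - (1 / 2 : ℝ) ^ KK m D) := by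
      intro P' hP' hnt N hN
      rw [count_eq, ← rpow_eq hN]
      have h1 := hC t ω P' (fun j l => Complex.exp_ne_zero _) hω hω0 hnd (hZ P' hP') (by
        intro htriv
        apply hnt
        intro j
        by_cases hj : w j = 0
        · refine ⟨fun h => absurd hj h, (htriv j).1 (fun l => ?_)⟩
          rw [ht]
          simp only [hj, zero_mul, Complex.exp_zero]
          exact isAlgebraic_one
        · have h2 : P' j = 0 := (htriv j).2 (by
            by_contra hcon
            push Not at hcon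
            exact hj (alg_char hr hω hli (fun l => not_not.mp (hcon l))))
          refine ⟨fun _ => h2, fun e => ?_⟩
          rw [h2, coeff_zero]
          exact LogForms.zero_mem) N hN
      simp only [hEP] at h1
      exact h1
    refine ⟨?_, htr P hP, ?_⟩
    · intro htriv n
      have h1 := triv_mem (t := t) (ω := ω) hω (P := P) (by
        intro j
        refine ⟨fun _ => (htriv j).2, fun hl => (htriv j).1 ?_⟩
        intro hj
        obtain ⟨l, hl⟩ := hl
        apply hl
        rw [ht]
        simp only [hj, zero_mul, Complex.exp_zero]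
        exact isAlgebraic_one) n
      rw [hEP] at h1
      exact h1
    · intro hex N hN
      obtain ⟨j0, hj0, hP0⟩ := hex
      have hlog : ∀ z, expPoly w (fun j => Polynomial.C (Complex.log (Real.pi : ℂ)) * P j) z =
          Complex.log (Real.pi : ℂ) * expPoly w P z := by
        intro z
        unfold expPoly
        rw [Finset.mul_sum]
        apply Finset.sum_congr rfl
        intro j _
        rw [eval_mul, eval_C]
        ring
      have h1 := htr P hP (fun h => hP0 ((h j0).1 hj0)) N hN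
      have h2 := htr (fun j => Polynomial.C (Complex.log (Real.pi : ℂ)) * P j) (fun j => by
          refine lt_of_le_of_lt ?_ (hP j)
          refine (degree_mul_le _ _).trans ?_
          rw [degree_C logPi_ne, zero_add])
        (fun h => by
          have h3 := (h j0).1 hj0
          rcases mul_eq_zero.mp h3 with h4 | h4
          · exact logPi_ne (C_eq_zero.mp h4)
          · exact hP0 h4) N hN
      have h3 := count_le N (Q := fun n : Fin r → ℤ =>
          ¬ Generic (expPoly w P (∑ l, (n l : ℂ) * ω l)))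
        (Q1 := fun n => expPoly w P (∑ l, (n l : ℂ) * ω l) ∈ LogForms)
        (Q2 := fun n => expPoly w (fun j => Polynomial.C (Complex.log (Real.pi : ℂ)) * P j)
          (∑ l, (n l : ℂ) * ω l) ∈ LogForms) (by
        intro n hn
        rw [hlog]
        exact not_generic hn)
      have h4 : (count N (fun n : Fin r → ℤ =>
          ¬ Generic (expPoly w P (∑ l, (n l : ℂ) * ω l))) : ℝ) ≤
          (count N (fun n : Fin r → ℤ => expPoly w P (∑ l, (n l : ℂ) * ω l) ∈ LogForms) : ℝ) +
          (count N (fun n : Fin r → ℤ =>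
            expPoly w (fun j => Polynomial.C (Complex.log (Real.pi : ℂ)) * P j)
              (∑ l, (n l : ℂ) * ω l) ∈ LogForms) : ℝ) := by exact_mod_cast h3
      linarith
  · intro t ω P ht hω hω0 hnd hP
    refine ⟨fun h n => triv_mem (t := t) (ω := ω) hω (P := P) h n, ?_⟩
    intro hnt N hN
    rw [count_eq, ← rpow_eq hN]
    exact hC t ω P ht hω hω0 hnd (hZ P hP) hnt N hN

end Pool.Agent.Results.MP_a2f59b_nt.ExponentialPolynomials
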