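import Mathlib
import Pool.Agent.D0H23.EP.Fin

/-!
# Rational powers of a number against all exponentials of algebraic numbers

Let `E` be the ring of all sums `∑ c_i exp β_i` with algebraic `c_i`, `β_i` (`IsExpSum N z` says that
`z` is such a sum with `N` terms) and let `Q(E)` be its field of fractions (`IsExpQuot N z` says that
`z` is a quotient of two sums with `N` terms).

(1) For a complex `l` (for instance `l = log π`) either all the numbers `exp (s l)`, `s` rational,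
are single terms `c exp β`, or there is a rational `s₀` such that `exp (s l)` lies in `Q(E)` exactly
for `s` in `ℤ s₀`, and in `E` only for `s = 0` or exactly for `s` in `ℕ s₀`; and if
`exp (n s₀ l) ≠ 1` is a quotient of two sums with `N` terms then `|n| < N`.

(2) If two sums `exp (s l) + c exp β` and `exp (s' l) + c' exp β'` with nonzero rational `s`, `s'`
and nonzero algebraic `c`, `β`, `c'`, `β'` are algebraic, then they are the same sum, or both are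
zero and `s β' = s' β`.

(3) If such a sum is algebraic and not zero, then `exp (t l)` lies in `Q(E)` exactly for `t` in `ℤ s`,
and in `E` exactly for `t` in `ℕ s`.

(4) For a real `x > 0` and a real algebraic `b₀ ≠ 0` (for instance `x = π`, `b₀ = 1`): the four
numbers `x + e^b₀`, `x - e^b₀`, `x e^b₀`, `x / e^b₀` are transcendental; or
all four numbers `x^s + e^b`, `x^s - e^b`, `x^s e^b`, `x^s / e^b` are transcendental for all nonzero
rational `s` and algebraic `b` other than `(1, b₀)`, and `x^s` lies in `Q(E)` only for integers `s`;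
or `x = c e^(± b₀)` with `c` algebraic and the four numbers are transcendental whenever
`|b| ≠ |s| |b₀|`.
-/

set_option autoImplicit false

namespace Pool.Agent.Results.MP_a2f59b_nt.PowersAgainstExponentials

open Pool.Agent.D0H23.EP

theorem result :
    (∀ l : ℂ, (∀ s : ℚ, IsExpSum 1 (Complex.exp (s * l))) ∨
      ∃ s₀ : ℚ, (∀ s : ℚ, (∃ N, IsExpQuot N (Complex.exp (s * l))) ↔ ∃ n : ℤ, s = n * s₀) ∧
        (∀ (n : ℤ) (N : ℕ), n * s₀ ≠ 0 → IsExpQuot N (Complex.exp (((n * s₀ : ℚ) : ℂ) * l)) →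
          |n| < N) ∧
        ((∀ s : ℚ, (∃ N, IsExpSum N (Complex.exp (s * l))) ↔ s = 0) ∨
         (∀ s : ℚ, (∃ N, IsExpSum N (Complex.exp (s * l))) ↔ ∃ n : ℕ, s = n * s₀))) ∧
    (∀ (l : ℂ) (s s' : ℚ) (c c' β β' : ℂ), s ≠ 0 → s' ≠ 0 → c ≠ 0 → c' ≠ 0 → β ≠ 0 → β' ≠ 0 →
      IsAlgebraic ℚ c → IsAlgebraic ℚ c' → IsAlgebraic ℚ β → IsAlgebraic ℚ β' →
      IsAlgebraic ℚ (Complex.exp (s * l) + c * Complex.exp β) →
      IsAlgebraic ℚ (Complex.exp (s' * l) + c' * Complex.exp β') →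
      (s = s' ∧ c = c' ∧ β = β') ∨
        (Complex.exp (s * l) + c * Complex.exp β = 0 ∧
          Complex.exp (s' * l) + c' * Complex.exp β' = 0 ∧ (s : ℂ) * β' = (s' : ℂ) * β)) ∧
    (∀ (l : ℂ) (s : ℚ) (c β : ℂ), s ≠ 0 → c ≠ 0 → β ≠ 0 → IsAlgebraic ℚ c → IsAlgebraic ℚ β →
      IsAlgebraic ℚ (Complex.exp (s * l) + c * Complex.exp β) →
      Complex.exp (s * l) + c * Complex.exp β ≠ 0 →
      (∀ t : ℚ, (∃ N, IsExpQuot N (Complex.exp (t * l))) ↔ ∃ n : ℤ, t = n * s) ∧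
      (∀ t : ℚ, (∃ N, IsExpSum N (Complex.exp (t * l))) ↔ ∃ n : ℕ, t = n * s)) ∧
    (∀ x : ℝ, 0 < x → ∀ b₀ : ℝ, b₀ ≠ 0 → IsAlgebraic ℚ b₀ →
      AllFour x (Real.exp b₀) ∨
      ((∀ (s : ℚ) (b : ℝ), s ≠ 0 → b ≠ 0 → IsAlgebraic ℚ b → ¬ (s = 1 ∧ b = b₀) →
          AllFour (x ^ (s : ℝ)) (Real.exp b)) ∧
        (∀ s : ℚ, (∃ N, IsExpQuot N ((x ^ (s : ℝ) : ℝ) : ℂ)) ↔ ∃ n : ℤ, s = n) ∧
        (∀ s : ℚ, (∃ N, IsExpSum N ((x ^ (s : ℝ) : ℝ) : ℂ)) ↔ ∃ n : ℕ, s = n)) ∨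
      ((∃ c : ℝ, IsAlgebraic ℚ c ∧ (x = c * Real.exp b₀ ∨ x = c / Real.exp b₀)) ∧
        ∀ (s : ℚ) (b : ℝ), s ≠ 0 → b ≠ 0 → IsAlgebraic ℚ b → |b| ≠ |(s : ℝ)| * |b₀| →
          AllFour (x ^ (s : ℝ)) (Real.exp b))) :=
  ⟨part1, part2, part2', part4⟩

end Pool.Agent.Results.MP_a2f59b_nt.PowersAgainstExponentials
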