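import Pool.Agent.D0H21.PA.Main
import Pool.Agent.D0H21.PA.Poly

/-!
# The Lindemann-Weierstrass theorem with unknown coefficients, and the powers of `π`

Nothing is known about the sum, the difference, the product and the quotient of `π` and `e`. By the
theorem of Lindemann and Weierstrass the numbers `e ^ β`, `β` in a finite set `B` of algebraic numbers,
are linearly independent over the field of algebraic numbers. We show that they are linearly
independent over every finite dimensional space of complex numbers, and over the polynomials of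
bounded degree in any complex number, if only few differences are excluded.

Let `V` be a rational vector space of algebraic numbers (for example `V = 0`) and `closure V` the
field of all numbers algebraic over the field generated by the `e ^ v`, `v ∈ V` (for `V = 0` the field
of algebraic numbers).

(1) For arbitrary complex numbers `x₁, …, x_w` there is a set `T` of at most `w (w - 1) / 2` algebraic
numbers such that the following holds. Let `B` be a finite set of algebraic numbers, whose differences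
are not in `V` and not in `T + V`. If `∑ c_β e ^ β = 0` with `c_β` in the space generated by the `x_i`
over `closure V`, then all `c_β = 0`. The bound `w (w - 1) / 2` is best possible for every `w`.

(2) For every complex number `ξ` there is an algebraic number `α₀` such that this holds, for all `D`,
for coefficients `c_β = P_β(ξ)` with polynomials `P_β` of degree at most `D` over `closure V` and for the
differences `α₀, 2 α₀, …, D α₀`. For example, the numbers `π ^ i e ^ β`, `i ≤ D`, `β ∈ B`, are linearly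
independent over the algebraic numbers if no two elements of `B` differ by one of these numbers.

(3) Let `e ^ u` be a complex number not in `closure V`. There is an algebraic number `α₀` such that
for all rational `s ≠ 0` and algebraic `α ∉ V`: if `e ^ (s u)` and `e ^ α` satisfy a nonzero relation over
`closure V` of degree at most `D` in `e ^ (s u)` and at most `d` in `e ^ α`, then
`α ∈ ± s f α₀ + V` for one of the fractions `f = a / b`, `1 ≤ a ≤ D`, `1 ≤ b ≤ d`. For `u = α₀`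
all these fractions occur.

(4) There is an algebraic number `α₀` such that for all rational `s ≠ 0` and algebraic
`α ≠ 0, ± s α₀` the numbers `1, π ^ s, e ^ α, π ^ s e ^ α` are linearly independent over the algebraic
numbers; the numbers `π ^ s + e ^ α`, `π ^ s - e ^ α`, `π ^ s e ^ α`, `π ^ s / e ^ α` are transcendental.
So either `π + e`, `π - e`, `π e`, `π / e` are all transcendental, or all the numbers
`π ^ s + e ^ α`, `π ^ s - e ^ α`, `π ^ s e ^ α`, `π ^ s / e ^ α` with `α ≠ 0, ± s` are. The same for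
any `e ^ u` in place of `π` and `closure V` in place of the algebraic numbers.

(5) `closure V ∩ closure W = closure (V ∩ W)`, and every number in one of these fields has a smallest
space `V₀` of exponents, of finite dimension. For example, if `π` and `e` are algebraically dependent,
then `π` is transcendental over the field generated by all `e ^ v`, `v ∈ V`, for every rational vector
space `V` of algebraic numbers which does not contain `1`.

The proof of (1) and (2) constructs a valuation of the field of complex numbers, trivial on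
`closure V`, whose values at the `e ^ α` are different for `α` different modulo `V`; (3) uses the
degrees of the fields generated by powers.
-/

set_option autoImplicit false

namespace Pool.Agent.Results.MP_a2f59b_nt.UnknownCoefficients

open Finset
open Pool.Agent.D0H21.PA

/-- `V` consists of algebraic numbers. -/
def Algebraic (V : Submodule ℚ ℂ) : Prop := ∀ v ∈ V, IsAlgebraic ℚ v

/-- The complex numbers algebraic over the field generated by the numbers `e ^ v`, `v ∈ V`. -/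
def closure (V : Submodule ℚ ℂ) : Set ℂ :=
  {z | IsAlgebraic (IntermediateField.adjoin ℚ (Complex.exp '' (V : Set ℂ))) z}

/-- There is a nonzero polynomial `P = ∑ c i j X ^ i Z ^ j` with coefficients in `closure V`, of
degree at most `D` in `X` and at most `d` in `Z`, such that `P(x, z) = 0`. -/
def Related (V : Submodule ℚ ℂ) (x z : ℂ) (D d : ℕ) : Prop :=
  ∃ c : ℕ → ℕ → ℂ, (∀ i j, c i j ∈ closure V) ∧ (∃ i ≤ D, ∃ j ≤ d, c i j ≠ 0) ∧
    ∑ i ∈ range (D + 1), ∑ j ∈ range (d + 1), c i j * x ^ i * z ^ j = 0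

lemma closure_eq (V : Submodule ℚ ℂ) : closure V = AA V := by
  ext z
  unfold closure AA
  rw [mem_cl]
  exact IntermediateField.isAlgebraic_adjoin_iff

/-- The rational numbers `a / b` with `1 ≤ a ≤ D` and `1 ≤ b ≤ d`. -/
def fractions (D d : ℕ) : Finset ℚ := (Icc 1 D ×ˢ Icc 1 d).image fun p => (p.1 : ℚ) / p.2

/-- `B` consists of algebraic numbers, and no difference of two distinct elements of `B` lies in `V`
or in one of the classes `δ + V`, `δ ∈ T`. -/
def Separated (V : Submodule ℚ ℂ) (T : Set ℂ) (B : Finset ℂ) : Prop :=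
  (∀ β ∈ B, IsAlgebraic ℚ β) ∧
    ∀ β ∈ B, ∀ γ ∈ B, β ≠ γ → β - γ ∉ V ∧ ∀ δ ∈ T, β - γ - δ ∉ V

/-- For all finite sets `B` separated by `T` modulo `V` the numbers `e ^ β`, `β ∈ B`, are linearly
independent over the space generated by the numbers `x i` over `closure V`. -/
def Independent (V : Submodule ℚ ℂ) {w : ℕ} (x : Fin w → ℂ) (T : Set ℂ) : Prop :=
  ∀ B : Finset ℂ, Separated V T B → ∀ a : ℂ → Fin w → ℂ, (∀ β i, a β i ∈ closure V) →
    ∑ β ∈ B, (∑ i, a β i * x i) * Complex.exp β = 0 → ∀ β ∈ B, ∑ i, a β i * x i = 0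

theorem part1 (V : Submodule ℚ ℂ) (hV : Algebraic V) (w : ℕ) (x : Fin w → ℂ) :
    ∃ T : Finset ℂ, 2 * T.card ≤ w * (w - 1) ∧ (∀ δ ∈ T, IsAlgebraic ℚ δ) ∧ Independent V x T := by
  obtain ⟨T, h1, h2, h3⟩ := lw_coef hV x
  refine ⟨T, ?_, h2, ?_⟩
  · rw [Nat.choose_two_right] at h1
    omega
  · intro B hB a ha h0
    exact h3 B hB.1 (fun β hβ γ hγ hne => ⟨(hB.2 β hβ γ hγ hne).1,
      fun δ hδ => (hB.2 β hβ γ hγ hne).2 δ (Finset.mem_coe.2 hδ)⟩) a
      (fun β _ i => by rw [← closure_eq]; exact ha β i) h0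

theorem part2' (V : Submodule ℚ ℂ) (hV : Algebraic V) (ξ : ℂ) :
    ∃ α₀ : ℂ, IsAlgebraic ℚ α₀ ∧ ∀ (D : ℕ) (B : Finset ℂ),
      Separated V {δ | ∃ j : ℕ, 1 ≤ j ∧ j ≤ D ∧ δ = j * α₀} B →
      ∀ a : ℂ → ℕ → ℂ, (∀ β i, a β i ∈ closure V) →
        ∑ β ∈ B, (∑ i ∈ range (D + 1), a β i * ξ ^ i) * Complex.exp β = 0 →
        ∀ β ∈ B, ∑ i ∈ range (D + 1), a β i * ξ ^ i = 0 := by
  obtain ⟨α₀, h1, h2⟩ := lw_poly hV ξ
  refine ⟨α₀, h1, fun D B hB a ha h0 => ?_⟩
  exact h2 D B hB.1 (fun β hβ γ hγ hne => ⟨(hB.2 β hβ γ hγ hne).1,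
    fun j hj hjD => (hB.2 β hβ γ hγ hne).2 _ ⟨j, hj, hjD, rfl⟩⟩) a
    (fun β _ i => by rw [← closure_eq]; exact ha β i) h0

lemma three_pow {i j a b : ℕ} (ha : 1 ≤ a) (hb : 1 ≤ b) (h : 3 ^ (i + a) + 3 ^ j = 3 ^ (j + b) + 3 ^ i) :
    i = j := by
  by_contra hne
  have key : ∀ i c a b : ℕ, 1 ≤ c → 1 ≤ a → 1 ≤ b →
      3 ^ (i + a) + 3 ^ (i + c) ≠ 3 ^ (i + c + b) + 3 ^ i := by
    intro i c a b hc ha hb h
    obtain ⟨a', rfl⟩ : ∃ a', a = a' + 1 := ⟨a - 1, by omega⟩
    obtain ⟨c', rfl⟩ : ∃ c', c = c' + 1 := ⟨c - 1, by omega⟩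
    have h1 : 3 ^ i * (3 * 3 ^ a' + 3 * 3 ^ c') = 3 ^ i * (3 * (3 ^ c' * 3 ^ b) + 1) := by
      calc 3 ^ i * (3 * 3 ^ a' + 3 * 3 ^ c') = 3 ^ (i + (a' + 1)) + 3 ^ (i + (c' + 1)) := by ring
        _ = 3 ^ (i + (c' + 1) + b) + 3 ^ i := h
        _ = 3 ^ i * (3 * (3 ^ c' * 3 ^ b) + 1) := by ring
    have h2 := Nat.eq_of_mul_eq_mul_left (pow_pos (by norm_num) i) h1
    omega
  rcases lt_or_gt_of_ne hne with h1 | h1
  · obtain ⟨c, rfl⟩ : ∃ c, j = i + c := ⟨j - i, by omega⟩
    exact key i c a b (by omega) ha hb h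
  · obtain ⟨c, rfl⟩ : ∃ c, i = j + c := ⟨i - j, by omega⟩
    exact key j c b a (by omega) hb ha (by omega)

lemma diff_inj {w : ℕ} {i j k l : Fin w} (hij : i ≠ j) (hkl : k ≠ l)
    (h : (3 : ℂ) ^ (i : ℕ) - 3 ^ (j : ℕ) = 3 ^ (k : ℕ) - 3 ^ (l : ℕ)) : i = k ∧ j = l := by
  have h1 : (3 : ℕ) ^ (i : ℕ) + 3 ^ (l : ℕ) = 3 ^ (k : ℕ) + 3 ^ (j : ℕ) := by
    have : (3 : ℂ) ^ (i : ℕ) + 3 ^ (l : ℕ) = 3 ^ (k : ℕ) + 3 ^ (j : ℕ) := by linear_combination h
    exact_mod_cast this
  have hmono : ∀ a b : ℕ, a < b → (3 : ℕ) ^ a < 3 ^ b := fun a b hab =>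
    Nat.pow_lt_pow_right (by norm_num) hab
  have hik : i = k := by
    by_contra hne
    have hne' : (i : ℕ) ≠ k := fun h => hne (Fin.ext h)
    rcases lt_or_gt_of_ne hne' with h2 | h2
    · have h3 : (j : ℕ) < l := by
        by_contra h4
        rcases eq_or_lt_of_le (not_lt.1 h4) with h5 | h5
        · rw [h5] at h1
          have := hmono _ _ h2
          omega
        · have := hmono _ _ h2
          have := hmono _ _ h5
          omega
      obtain ⟨a, ha⟩ : ∃ a, (k : ℕ) = i + a := ⟨k - i, by omega⟩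
      obtain ⟨b, hb⟩ : ∃ b, (l : ℕ) = j + b := ⟨l - j, by omega⟩
      rw [ha, hb] at h1
      have := three_pow (i := (i : ℕ)) (j := (j : ℕ)) (a := a) (b := b) (by omega) (by omega)
        (by omega)
      exact hij (Fin.ext this)
    · have h3 : (l : ℕ) < j := by
        by_contra h4
        rcases eq_or_lt_of_le (not_lt.1 h4) with h5 | h5
        · rw [h5] at h1
          have := hmono _ _ h2
          omega
        · have := hmono _ _ h2
          have := hmono _ _ h5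
          omega
      obtain ⟨a, ha⟩ : ∃ a, (i : ℕ) = k + a := ⟨i - k, by omega⟩
      obtain ⟨b, hb⟩ : ∃ b, (j : ℕ) = l + b := ⟨j - l, by omega⟩
      rw [ha, hb] at h1
      have := three_pow (i := (k : ℕ)) (j := (l : ℕ)) (a := a) (b := b) (by omega) (by omega)
        (by omega)
      exact hkl (Fin.ext this)
  refine ⟨hik, ?_⟩
  rw [hik] at h1
  have h2 : (3 : ℕ) ^ (l : ℕ) = 3 ^ (j : ℕ) := by omega
  exact (Fin.ext (Nat.pow_right_injective (le_refl 3 |>.trans' (by norm_num)) h2)).symm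

theorem part1_sharp (w : ℕ) : ∃ x : Fin w → ℂ, ∀ T : Finset ℂ, Independent ⊥ x T →
    w * (w - 1) ≤ 2 * T.card := by
  classical
  refine ⟨fun i => Complex.exp (3 ^ (i : ℕ)), fun T hT => ?_⟩
  have h0mem : (0 : ℂ) ∈ closure ⊥ := isAlgebraic_zero
  have h1mem : (1 : ℂ) ∈ closure ⊥ := isAlgebraic_one
  have key : ∀ i j : Fin w, i ≠ j → (3 : ℂ) ^ (i : ℕ) - 3 ^ (j : ℕ) ∈ T ∪ T.image fun δ => -δ := by
    intro i j hij
    by_contra hnot
    rw [Finset.mem_union, Finset.mem_image] at hnot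
    push Not at hnot
    have hne : (3 : ℂ) ^ (i : ℕ) ≠ 3 ^ (j : ℕ) := by
      intro h
      apply hij
      have : (3 : ℕ) ^ (i : ℕ) = 3 ^ (j : ℕ) := by exact_mod_cast h
      exact Fin.ext (Nat.pow_right_injective (le_refl 3 |>.trans' (by norm_num)) this)
    have hsep : Separated ⊥ (T : Set ℂ) {(3 : ℂ) ^ (i : ℕ), (3 : ℂ) ^ (j : ℕ)} := by
      refine ⟨?_, ?_⟩
      · intro β hβ
        rw [Finset.mem_insert, Finset.mem_singleton] at hβ
        rcases hβ with rfl | rfl
        · exact_mod_cast isAlgebraic_natCast (3 ^ (i : ℕ))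
        · exact_mod_cast isAlgebraic_natCast (3 ^ (j : ℕ))
      · intro β hβ γ hγ hβγ
        rw [Finset.mem_insert, Finset.mem_singleton] at hβ hγ
        refine ⟨by rw [Submodule.mem_bot]; exact sub_ne_zero.2 hβγ, fun δ hδ => ?_⟩
        rw [Submodule.mem_bot, sub_eq_zero]
        intro h
        rw [Finset.mem_coe] at hδ
        rcases hβ with rfl | rfl <;> rcases hγ with rfl | rfl
        · exact hβγ rfl
        · exact hnot.1 (by rw [h]; exact hδ)
        · exact hnot.2 δ hδ (by rw [← h]; ring)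
        · exact hβγ rfl
    have h2 := hT _ hsep (fun β k => if β = 3 ^ (i : ℕ) then (if k = j then 1 else 0) else
      (if k = i then -1 else 0)) (fun β k => by
        split_ifs
        · exact h1mem
        · exact h0mem
        · exact IsAlgebraic.neg h1mem
        · exact h0mem) ?_ (3 ^ (i : ℕ)) (Finset.mem_insert_self _ _)
    · simp only [if_true, ite_mul, one_mul, zero_mul, Finset.sum_ite_eq', Finset.mem_univ] at h2
      exact Complex.exp_ne_zero _ h2
    · rw [Finset.sum_pair hne]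
      simp only [if_true, ite_mul, one_mul, zero_mul, Finset.sum_ite_eq', Finset.mem_univ,
        if_neg (Ne.symm hne)]
      ring
  have hinj : Set.InjOn (fun p : Fin w × Fin w => (3 : ℂ) ^ (p.1 : ℕ) - 3 ^ (p.2 : ℕ))
      (Finset.univ : Finset (Fin w)).offDiag := by
    rintro ⟨i, j⟩ hij ⟨k, l⟩ hkl h
    rw [Finset.mem_coe, Finset.mem_offDiag] at hij hkl
    obtain ⟨h1, h2⟩ := diff_inj hij.2.2 hkl.2.2 h
    exact Prod.ext h1 h2
  have h3 := Finset.card_image_of_injOn hinj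
  have h4 : ((Finset.univ : Finset (Fin w)).offDiag.image
      fun p : Fin w × Fin w => (3 : ℂ) ^ (p.1 : ℕ) - 3 ^ (p.2 : ℕ)) ⊆ T ∪ T.image fun δ => -δ := by
    intro z hz
    obtain ⟨⟨i, j⟩, hij, rfl⟩ := Finset.mem_image.1 hz
    rw [Finset.mem_offDiag] at hij
    exact key i j hij.2.2
  have h5 := Finset.card_le_card h4
  rw [h3, Finset.offDiag_card, Finset.card_univ, Fintype.card_fin] at h5
  have h6 : (T ∪ T.image fun δ => -δ).card ≤ T.card + T.card :=
    (Finset.card_union_le _ _).trans (Nat.add_le_add_left Finset.card_image_le _)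
  have h7 : w * w - w = w * (w - 1) := by
    rw [Nat.mul_sub, mul_one]
  omega

lemma rel_of_related {V : Submodule ℚ ℂ} {K : IntermediateField ℚ ℂ} (hKV : ∀ z, z ∈ K ↔ z ∈ AA V)
    {x z : ℂ} {D d : ℕ} (h : Related V x z D d) : Pool.Agent.D0H21.PE.Rel K x z D d := by
  obtain ⟨c, hc, ⟨i, hi, j, hj, hij⟩, h0⟩ := h
  rw [closure_eq] at hc
  refine ⟨fun i j => ⟨c i j, (hKV _).2 (hc i j)⟩, ⟨i, hi, j, hj, ?_⟩, h0⟩
  intro h
  exact hij (congrArg Subtype.val h)

theorem part2 (V : Submodule ℚ ℂ) (hV : Algebraic V) (w : ℂ) (hw : Complex.exp w ∉ closure V) :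
    ∃ α₀ : ℂ, IsAlgebraic ℚ α₀ ∧ ∀ (D d : ℕ) (s : ℚ) (α : ℂ), s ≠ 0 → IsAlgebraic ℚ α → α ∉ V →
      Related V (Complex.exp (s * w)) (Complex.exp α) D d →
      ∃ f ∈ fractions D d, α - s * f * α₀ ∈ V ∨ α + s * f * α₀ ∈ V := by
  obtain ⟨K, hKV, hK⟩ := AA_field V
  rw [closure_eq] at hw
  obtain ⟨α₀, h1, h2⟩ := exceptional hV hKV hK w hw
  refine ⟨α₀, h1, fun D d s α hs hα hαV hr => ?_⟩
  obtain ⟨a, c, ha, haD, hc, hcd, h⟩ := h2 s α hs hα hαV D d (rel_of_related hKV hr)
  refine ⟨(a : ℚ) / c, Finset.mem_image.2 ⟨(a, c), Finset.mem_product.2 ⟨Finset.mem_Icc.2 ⟨ha, haD⟩,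
    Finset.mem_Icc.2 ⟨hc, hcd⟩⟩, rfl⟩, ?_⟩
  rwa [← mul_assoc] at h

lemma fractions_one {f : ℚ} (h : f ∈ fractions 1 1) : f = 1 := by
  obtain ⟨⟨a, b⟩, hab, rfl⟩ := Finset.mem_image.1 h
  simp only [Finset.mem_product, Finset.mem_Icc] at hab
  have h1 : a = 1 := by omega
  have h2 : b = 1 := by omega
  simp [h1, h2]

lemma related_one {V : Submodule ℚ ℂ} {x z a b c d : ℂ} (ha : a ∈ closure V) (hb : b ∈ closure V)
    (hc : c ∈ closure V) (hd : d ∈ closure V) (h : a + b * x + c * z + d * (x * z) = 0)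
    (hne : ¬ (a = 0 ∧ b = 0 ∧ c = 0 ∧ d = 0)) : Related V x z 1 1 := by
  refine ⟨fun i j => if i = 0 then (if j = 0 then a else c) else (if j = 0 then b else d), ?_, ?_, ?_⟩
  · intro i j
    dsimp only
    split_ifs <;> assumption
  · by_contra h1
    push Not at h1
    apply hne
    refine ⟨?_, ?_, ?_, ?_⟩
    · simpa using h1 0 (by norm_num) 0 (by norm_num)
    · simpa using h1 1 (by norm_num) 0 (by norm_num)
    · simpa using h1 0 (by norm_num) 1 (by norm_num)
    · simpa using h1 1 (by norm_num) 1 (by norm_num)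
  · simp only [Finset.sum_range_succ, Finset.sum_range_zero, zero_add, if_true, pow_zero, pow_one,
      one_ne_zero, if_false, mul_one]
    linear_combination h

lemma zero_mem_closure (V : Submodule ℚ ℂ) : (0 : ℂ) ∈ closure V := isAlgebraic_zero
lemma one_mem_closure (V : Submodule ℚ ℂ) : (1 : ℂ) ∈ closure V := isAlgebraic_one

theorem part3 (V : Submodule ℚ ℂ) (hV : Algebraic V) (w : ℂ) :
    ∃ α₀ : ℂ, IsAlgebraic ℚ α₀ ∧ ∀ (s : ℚ) (α : ℂ), s ≠ 0 → IsAlgebraic ℚ α → α ∉ V →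
      α - s * α₀ ∉ V → α + s * α₀ ∉ V →
      Complex.exp (s * w) + Complex.exp α ∉ closure V ∧
      Complex.exp (s * w) - Complex.exp α ∉ closure V ∧
      Complex.exp (s * w) * Complex.exp α ∉ closure V ∧
      Complex.exp (s * w) / Complex.exp α ∉ closure V := by
  obtain ⟨K, hKV, hK⟩ := AA_field V
  have hcl : ∀ z, z ∈ closure V ↔ z ∈ K := fun z => by rw [closure_eq, hKV]
  by_cases hw : Complex.exp w ∈ closure V
  · refine ⟨0, isAlgebraic_zero, fun s α hs hα hαV _ _ => ?_⟩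
    have h1 : Complex.exp (s * w) ∈ K := exp_smul_mem hK s ((hcl _).1 hw)
    have h2 : Complex.exp α ∉ K := fun h => hαV (mem_of_exp_mem hV hα ((hKV _).1 h))
    have h3 : Complex.exp (s * w) ≠ 0 := Complex.exp_ne_zero _
    have h4 : Complex.exp α ≠ 0 := Complex.exp_ne_zero _
    simp only [hcl]
    refine ⟨fun h => h2 ?_, fun h => h2 ?_, fun h => h2 ?_, fun h => h2 ?_⟩
    · have := K.sub_mem h h1
      rwa [add_sub_cancel_left] at this
    · have := K.sub_mem h1 h
      rwa [sub_sub_cancel] at this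
    · have := K.div_mem h h1
      rwa [mul_div_cancel_left₀ _ h3] at this
    · have := K.div_mem h1 h
      rwa [div_div_cancel₀ h3] at this
  · obtain ⟨α₀, h1, h2⟩ := part2 V hV w hw
    refine ⟨α₀, h1, fun s α hs hα hαV h3 h4 => ?_⟩
    have key : ¬ Related V (Complex.exp (s * w)) (Complex.exp α) 1 1 := by
      intro h
      obtain ⟨f, hf, h5⟩ := h2 1 1 s α hs hα hαV h
      rw [fractions_one hf, Rat.cast_one, mul_one] at h5
      exact h5.elim h3 h4
    have z0 := zero_mem_closure V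
    have o1 := one_mem_closure V
    have hneg : ∀ z ∈ closure V, -z ∈ closure V := fun z hz => by
      rw [hcl] at hz ⊢
      exact K.neg_mem hz
    refine ⟨fun h => key ?_, fun h => key ?_, fun h => key ?_, fun h => key ?_⟩
    · exact related_one (hneg _ h) o1 o1 z0 (by ring) (by simp)
    · exact related_one (hneg _ h) o1 (hneg _ o1) z0 (by ring) (by simp)
    · exact related_one (hneg _ h) z0 z0 o1 (by ring) (by simp)
    · refine related_one z0 o1 (hneg _ h) z0 ?_ (by simp)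
      have h5 : Complex.exp α ≠ 0 := Complex.exp_ne_zero _
      field_simp
      ring

lemma algebraic_bot : Algebraic ⊥ := by
  intro v hv
  rw [Submodule.mem_bot] at hv
  rw [hv]
  exact isAlgebraic_zero

lemma mem_closure_bot {z : ℂ} : z ∈ closure ⊥ ↔ IsAlgebraic ℚ z := by
  refine ⟨fun h => ?_, fun h => ?_⟩
  · unfold closure at h
    have h1 := (IntermediateField.isAlgebraic_adjoin_iff_isAlgebraic (F := ℚ) (E := ℂ)
        (S := Complex.exp '' ((⊥ : Submodule ℚ ℂ) : Set ℂ))).2 (by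
      rintro _ ⟨v, hv, rfl⟩
      rw [SetLike.mem_coe, Submodule.mem_bot] at hv
      rw [hv, Complex.exp_zero]
      exact isAlgebraic_one)
    let _ : Algebra ℚ (IntermediateField.adjoin ℚ (Complex.exp '' ((⊥ : Submodule ℚ ℂ) : Set ℂ))) :=
      IntermediateField.algebra' _
    rw [Set.mem_ofPred_eq] at h
    exact h.restrictScalars ℚ
  · rw [closure_eq]
    exact mem_AA_bot h

theorem part4 : ∃ α₀ : ℂ, IsAlgebraic ℚ α₀ ∧ ∀ (s : ℚ) (α : ℂ), s ≠ 0 → IsAlgebraic ℚ α → α ≠ 0 →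
      α ≠ s * α₀ → α ≠ -(s * α₀) →
      (∀ a b c d : ℂ, IsAlgebraic ℚ a → IsAlgebraic ℚ b → IsAlgebraic ℚ c → IsAlgebraic ℚ d →
        a + b * (Real.pi ^ (s : ℝ) : ℝ) + c * Complex.exp α +
          d * ((Real.pi ^ (s : ℝ) : ℝ) * Complex.exp α) = 0 → a = 0 ∧ b = 0 ∧ c = 0 ∧ d = 0) ∧
      Transcendental ℚ ((Real.pi ^ (s : ℝ) : ℝ) + Complex.exp α) ∧
      Transcendental ℚ ((Real.pi ^ (s : ℝ) : ℝ) - Complex.exp α) ∧
      Transcendental ℚ ((Real.pi ^ (s : ℝ) : ℝ) * Complex.exp α) ∧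
      Transcendental ℚ ((Real.pi ^ (s : ℝ) : ℝ) / Complex.exp α) := by
  have hpi : ∀ s : ℚ, Complex.exp (s * ((Real.log Real.pi : ℝ) : ℂ)) =
      ((Real.pi ^ (s : ℝ) : ℝ) : ℂ) := by
    intro s
    rw [Real.rpow_def_of_pos Real.pi_pos, Complex.ofReal_exp]
    congr 1
    push_cast
    ring
  have hw : Complex.exp ((Real.log Real.pi : ℝ) : ℂ) ∉ closure ⊥ := by
    rw [mem_closure_bot, ← Complex.ofReal_exp, Real.exp_log Real.pi_pos]
    exact Pool.Agent.H340R2.LW.transcendental_pi_complex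
  obtain ⟨α₀, h1, h2⟩ := part2 ⊥ algebraic_bot _ hw
  refine ⟨α₀, h1, fun s α hs hα hα0 h3 h4 => ?_⟩
  have key : ¬ Related ⊥ (Complex.exp (s * ((Real.log Real.pi : ℝ) : ℂ))) (Complex.exp α) 1 1 := by
    intro h
    obtain ⟨f, hf, h5⟩ := h2 1 1 s α hs hα (by rwa [Submodule.mem_bot]) h
    rw [fractions_one hf, Rat.cast_one, mul_one, Submodule.mem_bot, Submodule.mem_bot] at h5
    rcases h5 with h6 | h6
    · exact h3 (sub_eq_zero.1 h6)
    · exact h4 (eq_neg_of_add_eq_zero_left h6)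
  rw [hpi] at key
  have main : ∀ a b c d : ℂ, IsAlgebraic ℚ a → IsAlgebraic ℚ b → IsAlgebraic ℚ c → IsAlgebraic ℚ d →
        a + b * (Real.pi ^ (s : ℝ) : ℝ) + c * Complex.exp α +
          d * ((Real.pi ^ (s : ℝ) : ℝ) * Complex.exp α) = 0 → a = 0 ∧ b = 0 ∧ c = 0 ∧ d = 0 := by
    intro a b c d ha hb hc hd h
    by_contra hne
    exact key (related_one (mem_closure_bot.2 ha) (mem_closure_bot.2 hb) (mem_closure_bot.2 hc)
      (mem_closure_bot.2 hd) h hne)
  refine ⟨main, fun h => ?_, fun h => ?_, fun h => ?_, fun h => ?_⟩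
  · have := (main _ 1 1 0 h.neg isAlgebraic_one isAlgebraic_one isAlgebraic_zero (by ring)).2.1
    exact one_ne_zero this
  · have := (main _ 1 (-1) 0 h.neg isAlgebraic_one isAlgebraic_one.neg isAlgebraic_zero
      (by ring)).2.1
    exact one_ne_zero this
  · have := (main _ 0 0 1 h.neg isAlgebraic_zero isAlgebraic_zero isAlgebraic_one (by ring)).2.2.2
    exact one_ne_zero this
  · have h5 : Complex.exp α ≠ 0 := Complex.exp_ne_zero _
    have := (main 0 1 _ 0 isAlgebraic_zero isAlgebraic_one h.neg isAlgebraic_zero (by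
      field_simp
      ring)).2.1
    exact one_ne_zero this

theorem part_pi : ∃ α₀ : ℂ, IsAlgebraic ℚ α₀ ∧ ∀ (D : ℕ) (B : Finset ℂ),
    Separated ⊥ {δ | ∃ j : ℕ, 1 ≤ j ∧ j ≤ D ∧ δ = j * α₀} B →
    ∀ a : ℂ → ℕ → ℂ, (∀ β i, IsAlgebraic ℚ (a β i)) →
      ∑ β ∈ B, ∑ i ∈ range (D + 1), a β i * ((Real.pi : ℂ) ^ i * Complex.exp β) = 0 →
      ∀ β ∈ B, ∀ i ≤ D, a β i = 0 := by
  obtain ⟨α₀, h1, h2⟩ := part2' ⊥ algebraic_bot (Real.pi : ℂ)
  refine ⟨α₀, h1, fun D B hB a ha h0 β hβ i hi => ?_⟩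
  have h3 := h2 D B hB a (fun β i => mem_closure_bot.2 (ha β i)) (by
    rw [← h0]
    refine Finset.sum_congr rfl fun β _ => ?_
    rw [Finset.sum_mul]
    refine Finset.sum_congr rfl fun i _ => ?_
    ring) β hβ
  by_contra hne
  obtain ⟨K, hKV, hK⟩ := AA_field ⊥
  have h4 : (Real.pi : ℂ) ∈ K := by
    refine root_mem hK (q := ∑ i ∈ range (D + 1), Polynomial.C (a β i) * Polynomial.X ^ i) ?_ ?_ ?_
    · intro h5
      have h6 := congrArg (fun q => Polynomial.coeff q i) h5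
      simp only [Polynomial.finsetSum_coeff, Polynomial.coeff_C_mul_X_pow,
        Polynomial.coeff_zero] at h6
      rw [Finset.sum_ite_eq (range (D + 1)) i, if_pos (Finset.mem_range.2 (by omega))] at h6
      exact hne h6
    · intro j
      simp only [Polynomial.finsetSum_coeff, Polynomial.coeff_C_mul_X_pow]
      rw [Finset.sum_ite_eq (range (D + 1)) j]
      split_ifs
      · rw [hKV, ← closure_eq]
        exact mem_closure_bot.2 (ha β j)
      · exact K.zero_mem
    · rw [Polynomial.eval_finsetSum, ← h3]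
      refine Finset.sum_congr rfl fun i _ => ?_
      simp
  rw [hKV, ← closure_eq, mem_closure_bot] at h4
  exact Pool.Agent.H340R2.LW.transcendental_pi_complex h4

theorem part5 (V : Submodule ℚ ℂ) (D d : ℕ) (s : ℚ) (α₀ : ℂ) (f : ℚ) (hf : f ∈ fractions D d) :
    Related V (Complex.exp (s * α₀)) (Complex.exp (s * f * α₀)) D d := by
  obtain ⟨⟨a, b⟩, hab, rfl⟩ := Finset.mem_image.1 hf
  rw [Finset.mem_product, Finset.mem_Icc, Finset.mem_Icc] at hab
  obtain ⟨⟨ha, haD⟩, hb, hbd⟩ := hab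
  simp only at ha haD hb hbd ⊢
  obtain ⟨x, hx⟩ : ∃ x, x = Complex.exp (s * α₀) := ⟨_, rfl⟩
  obtain ⟨z, hz⟩ : ∃ z, z = Complex.exp (s * (((a : ℚ) / (b : ℚ) : ℚ) : ℂ) * α₀) := ⟨_, rfl⟩
  rw [← hx, ← hz]
  refine ⟨fun i j => (if i = 0 then (if j = b then 1 else 0) else 0) -
    (if i = a then (if j = 0 then 1 else 0) else 0), ?_, ⟨0, Nat.zero_le _, b, hbd, ?_⟩, ?_⟩
  · intro i j
    have z0 := zero_mem_closure V
    have o1 := one_mem_closure V
    have hneg : ∀ z ∈ closure V, ∀ z' ∈ closure V, z - z' ∈ closure V := fun z hz z' hz' =>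
      IsAlgebraic.sub hz hz'
    apply hneg
    · split_ifs <;> assumption
    · split_ifs <;> assumption
  · simp only [if_true]
    rw [if_neg (by omega)]
    norm_num
  · simp only [sub_mul, Finset.sum_sub_distrib, ite_mul, one_mul, zero_mul]
    have e2 : ∑ i ∈ range (D + 1), ∑ j ∈ range (d + 1),
        (if i = 0 then (if j = b then x ^ i * z ^ j else 0) else 0) = z ^ b := by
      rw [Finset.sum_eq_single 0]
      · simp only [if_true]
        rw [Finset.sum_ite_eq' (range (d + 1)) b, if_pos (Finset.mem_range.2 (by omega))]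
        simp
      · intro i _ hi
        simp [hi]
      · intro h
        exact absurd (Finset.mem_range.2 (by omega)) h
    have e3 : ∑ i ∈ range (D + 1), ∑ j ∈ range (d + 1),
        (if i = a then (if j = 0 then x ^ i * z ^ j else 0) else 0) = x ^ a := by
      rw [Finset.sum_eq_single a]
      · simp only [if_true]
        rw [Finset.sum_ite_eq' (range (d + 1)) 0, if_pos (Finset.mem_range.2 (by omega))]
        simp
      · intro i _ hi
        simp [hi]
      · intro h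
        exact absurd (Finset.mem_range.2 (by omega)) h
    rw [e2, e3, hx, hz, ← Complex.exp_nat_mul, ← Complex.exp_nat_mul, sub_eq_zero]
    congr 1
    have hb0 : (b : ℂ) ≠ 0 := by
      have : b ≠ 0 := by omega
      exact_mod_cast this
    push_cast
    field_simp

theorem result :
    -- 1. Lindemann-Weierstrass with coefficients in a space of dimension `w`
    (∀ V : Submodule ℚ ℂ, Algebraic V → ∀ (w : ℕ) (x : Fin w → ℂ), ∃ T : Finset ℂ,
      2 * T.card ≤ w * (w - 1) ∧ (∀ δ ∈ T, IsAlgebraic ℚ δ) ∧ Independent V x T) ∧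
    (∀ w : ℕ, ∃ x : Fin w → ℂ, ∀ T : Finset ℂ, Independent ⊥ x T → w * (w - 1) ≤ 2 * T.card) ∧
    -- 2. coefficients polynomials in `ξ`; the case `ξ = π`
    (∀ V : Submodule ℚ ℂ, Algebraic V → ∀ ξ : ℂ, ∃ α₀ : ℂ, IsAlgebraic ℚ α₀ ∧
      ∀ (D : ℕ) (B : Finset ℂ), Separated V {δ | ∃ j : ℕ, 1 ≤ j ∧ j ≤ D ∧ δ = j * α₀} B →
      ∀ a : ℂ → ℕ → ℂ, (∀ β i, a β i ∈ closure V) →
        ∑ β ∈ B, (∑ i ∈ range (D + 1), a β i * ξ ^ i) * Complex.exp β = 0 →
        ∀ β ∈ B, ∑ i ∈ range (D + 1), a β i * ξ ^ i = 0) ∧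
    (∃ α₀ : ℂ, IsAlgebraic ℚ α₀ ∧ ∀ (D : ℕ) (B : Finset ℂ),
      Separated ⊥ {δ | ∃ j : ℕ, 1 ≤ j ∧ j ≤ D ∧ δ = j * α₀} B →
      ∀ a : ℂ → ℕ → ℂ, (∀ β i, IsAlgebraic ℚ (a β i)) →
        ∑ β ∈ B, ∑ i ∈ range (D + 1), a β i * ((Real.pi : ℂ) ^ i * Complex.exp β) = 0 →
        ∀ β ∈ B, ∀ i ≤ D, a β i = 0) ∧
    -- 3. relations of degrees at most `D`, `d`
    (∀ V : Submodule ℚ ℂ, Algebraic V → ∀ u : ℂ, Complex.exp u ∉ closure V →
      ∃ α₀ : ℂ, IsAlgebraic ℚ α₀ ∧ ∀ (D d : ℕ) (s : ℚ) (α : ℂ), s ≠ 0 → IsAlgebraic ℚ α → α ∉ V →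
        Related V (Complex.exp (s * u)) (Complex.exp α) D d →
        ∃ f ∈ fractions D d, α - s * f * α₀ ∈ V ∨ α + s * f * α₀ ∈ V) ∧
    (∀ (V : Submodule ℚ ℂ) (D d : ℕ) (s : ℚ) (α₀ : ℂ), ∀ f ∈ fractions D d,
      Related V (Complex.exp (s * α₀)) (Complex.exp (s * f * α₀)) D d) ∧
    -- 4. sums, differences, products, quotients; the powers of `π`
    (∀ V : Submodule ℚ ℂ, Algebraic V → ∀ u : ℂ, ∃ α₀ : ℂ, IsAlgebraic ℚ α₀ ∧
      ∀ (s : ℚ) (α : ℂ), s ≠ 0 → IsAlgebraic ℚ α → α ∉ V → α - s * α₀ ∉ V → α + s * α₀ ∉ V →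
        Complex.exp (s * u) + Complex.exp α ∉ closure V ∧
        Complex.exp (s * u) - Complex.exp α ∉ closure V ∧
        Complex.exp (s * u) * Complex.exp α ∉ closure V ∧
        Complex.exp (s * u) / Complex.exp α ∉ closure V) ∧
    (∃ α₀ : ℂ, IsAlgebraic ℚ α₀ ∧ ∀ (s : ℚ) (α : ℂ), s ≠ 0 → IsAlgebraic ℚ α → α ≠ 0 →
      α ≠ s * α₀ → α ≠ -(s * α₀) →
      (∀ a b c d : ℂ, IsAlgebraic ℚ a → IsAlgebraic ℚ b → IsAlgebraic ℚ c → IsAlgebraic ℚ d →
        a + b * (Real.pi ^ (s : ℝ) : ℝ) + c * Complex.exp α +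
          d * ((Real.pi ^ (s : ℝ) : ℝ) * Complex.exp α) = 0 → a = 0 ∧ b = 0 ∧ c = 0 ∧ d = 0) ∧
      Transcendental ℚ ((Real.pi ^ (s : ℝ) : ℝ) + Complex.exp α) ∧
      Transcendental ℚ ((Real.pi ^ (s : ℝ) : ℝ) - Complex.exp α) ∧
      Transcendental ℚ ((Real.pi ^ (s : ℝ) : ℝ) * Complex.exp α) ∧
      Transcendental ℚ ((Real.pi ^ (s : ℝ) : ℝ) / Complex.exp α)) ∧
    -- 5. the fields `closure V`, supports
    (∀ V W : Submodule ℚ ℂ, Algebraic V → Algebraic W → closure V ∩ closure W = closure (V ⊓ W)) ∧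
    (∀ V : Submodule ℚ ℂ, Algebraic V → ∀ z ∈ closure V, ∃ V₀ : Submodule ℚ ℂ, Algebraic V₀ ∧
      FiniteDimensional ℚ V₀ ∧ ∀ W : Submodule ℚ ℂ, Algebraic W → (z ∈ closure W ↔ V₀ ≤ W)) := by
  refine ⟨part1, part1_sharp, part2', part_pi, part2, part5, part3, part4,
    fun V W hV hW => ?_, fun V hV z hz => ?_⟩
  · rw [closure_eq, closure_eq, closure_eq]
    exact inter hV hW
  · rw [closure_eq] at hz
    obtain ⟨V₀, h1, h2, h3⟩ := support hV hz
    refine ⟨V₀, h1, h2, fun W hW => ?_⟩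
    rw [closure_eq]
    exact h3 W hW

end Pool.Agent.Results.MP_a2f59b_nt.UnknownCoefficients
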